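import Pool.Agent.K1H7.OE.Red
import Pool.Agent.H852R2.DM.CORE
import Pool.Agent.H265R2.DM.PAIRMIX
import Pool.Agent.H942R2.LL.HIGHN

/-!
From one short product with small support to all 3-cycles.
-/

set_option autoImplicit false

namespace Pool.Agent.K1H7.OE
open RC14 RC852 DM852 DM852.SHRINK Finset Filter Equiv

section
variable {n k l m : ℕ} {x : Fin k → Alt n} {y : Fin l → Alt n}

/-- the commutator as an element of `A_n` -/
def cjA (s g : Alt n) : Alt n := s⁻¹ * (g * s * g⁻¹)⁻¹ * s * (g * s * g⁻¹)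

lemma cjA_coe (s g : Alt n) : ((cjA s g : Alt n) : Perm (Fin n)) = cj (s : Perm (Fin n)) g := by
  unfold cjA cj
  push_cast
  rfl

lemma cjA_len {L h : ℕ} {s g : Alt n} (hs : Len y L s) (hg : Len y h g) :
    Len y (4 * L + 4 * h) (cjA s g) := by
  unfold cjA
  have h1 : Len y (h + L + h) (g * s * g⁻¹) := (hg.mul hs).mul hg.inv
  exact (((hs.inv.mul h1.inv).mul hs).mul h1).mono (by omega)

lemma coe_ne_one {s : Alt n} (hs : s ≠ 1) : (s : Perm (Fin n)) ≠ 1 := by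
  intro h
  exact hs (Subtype.ext h)

lemma iter (hn : 100 ≤ n) (hk : 1 ≤ k) (hmix : Mix2 (gx (xl x) m)) (hy : ∀ i, Len y 1 (x i))
    {q : ℕ} {s : Alt n} (hs : Len y q s) (hs1 : s ≠ 1)
    (hs2 : 100 * (s : Perm (Fin n)).support.card ≤ n) (i : ℕ) :
    ∃ (t : Alt n) (L : ℕ), t ≠ 1 ∧ Len y L t ∧ L + 4 * m ≤ 4 ^ i * (q + 4 * m) ∧
      100 * (t : Perm (Fin n)).support.card ≤ n ∧
      (2 * (t : Perm (Fin n)).support.card ^ 2 ≤ n ∨
        18 * ((t : Perm (Fin n)).support.card : ℝ) ≤ n * (1 / 5 : ℝ) ^ (2 ^ i)) := by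
  have : Nonempty (Fin (2 * m) → Fin (k + k) × Bool) := ⟨fun _ => (⟨0, by omega⟩, true)⟩
  have hnR : (100 : ℝ) ≤ n := by exact_mod_cast hn
  have hnp : (0 : ℝ) < n := by linarith
  induction i with
  | zero =>
    refine ⟨s, q, hs1, hs, by simp, hs2, Or.inr ?_⟩
    have : 100 * ((s : Perm (Fin n)).support.card : ℝ) ≤ n := by exact_mod_cast hs2
    rw [pow_zero, pow_one]
    linarith
  | succ i ih =>
    obtain ⟨t, L, h1, h2, h3, h4, h5⟩ := ih
    by_cases h6 : 2 * (t : Perm (Fin n)).support.card ^ 2 ≤ n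
    · refine ⟨t, L, h1, h2, h3.trans ?_, h4, Or.inl h6⟩
      refine Nat.mul_le_mul_right _ ?_
      exact Nat.pow_le_pow_right (by norm_num) (by omega)
    · have h5' : 18 * ((t : Perm (Fin n)).support.card : ℝ) ≤ n * (1 / 5 : ℝ) ^ (2 ^ i) := by
        rcases h5 with h | h
        · exact absurd h h6
        · exact h
      obtain ⟨v, hv1, hv2⟩ := reduce hn hmix (t : Perm (Fin n)) (coe_ne_one h1) h4
      obtain ⟨g, hg⟩ : ∃ g : Alt n, g = wrd (xl x) v := ⟨_, rfl⟩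
      have hgv : gx (xl x) m v = (g : Perm (Fin n)) := by rw [hg]; rfl
      have hgl : Len y (2 * m) g := by rw [hg]; exact Len_xl y x hy (2 * m) v
      rw [hgv, ← cjA_coe] at hv1 hv2
      obtain ⟨β, hβ⟩ : ∃ β : ℝ, β = (t : Perm (Fin n)).support.card := ⟨_, rfl⟩
      obtain ⟨β', hβ'⟩ : ∃ β' : ℝ, β' = ((cjA t g : Alt n) : Perm (Fin n)).support.card :=
        ⟨_, rfl⟩
      rw [← hβ, ← hβ'] at hv2
      rw [← hβ] at h5'
      have hβ0 : 0 ≤ β := by rw [hβ]; positivity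
      have h4' : 100 * β ≤ n := by rw [hβ]; exact_mod_cast h4
      have h6' : (n : ℝ) < 2 * β ^ 2 := by
        rw [hβ]
        exact_mod_cast not_le.1 h6
      have h7 : 1 < 2 * (β ^ 2 / n) := by
        rw [mul_div_assoc', lt_div_iff₀ hnp]; linarith
      have h8 : β' ≤ 18 * (β ^ 2 / n) := by linarith
      have h9 : β ^ 2 / n ≤ β / 100 := by
        rw [div_le_div_iff₀ hnp (by norm_num)]
        nlinarith
      refine ⟨cjA t g, 4 * L + 4 * (2 * m), ?_, cjA_len h2 hgl, ?_, ?_, Or.inr ?_⟩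
      · intro h
        rw [h] at hv1
        exact hv1 rfl
      · rw [pow_succ']
        calc 4 * L + 4 * (2 * m) + 4 * m ≤ 4 * (L + 4 * m) := by omega
          _ ≤ 4 * (4 ^ i * (q + 4 * m)) := Nat.mul_le_mul_left _ h3
          _ = _ := by ring
      · have : 100 * β' ≤ n := by nlinarith
        rw [hβ'] at this
        exact_mod_cast this
      · rw [← hβ', pow_succ, pow_mul]
        have h10 : (18 * β) ^ 2 ≤ (n * (1 / 5 : ℝ) ^ (2 ^ i)) ^ 2 :=
          pow_le_pow_left₀ (by positivity) h5' 2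
        have h11 : (n * (1 / 5 : ℝ) ^ (2 ^ i)) ^ 2 = n * (n * ((1 / 5 : ℝ) ^ (2 ^ i)) ^ 2) := by
          ring
        rw [h11] at h10
        calc 18 * β' ≤ 18 * (18 * (β ^ 2 / n)) := by linarith
          _ = (18 * β) ^ 2 / n := by ring
          _ ≤ n * (n * ((1 / 5 : ℝ) ^ (2 ^ i)) ^ 2) / n := div_le_div_of_nonneg_right h10 hnp.le
          _ = _ := by field_simp

/-- all 3-cycles are short products -/
theorem chain1 (hn : 100 ≤ n) (hk : 1 ≤ k) (hmix : Mix2 (gx (xl x) m)) (hy : ∀ i, Len y 1 (x i))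
    {q : ℕ} {s : Alt n} (hs : Len y q s) (hs1 : s ≠ 1)
    (hs2 : 100 * (s : Perm (Fin n)).support.card ≤ n) (I : ℕ)
    (hI : (n : ℝ) * (1 / 5 : ℝ) ^ (2 ^ I) < 18) (Lc : ℕ)
    (hconn : ∀ a a' : Tup 3 n, ∃ g : Alt n, Len x Lc g ∧ mv (g : Perm (Fin n)) a = a')
    (κ : Tup 3 n) : Len y (4 * (4 ^ I * (q + 4 * m)) + 2 * Lc) (c3 κ) := by
  have : Nonempty (Fin (2 * m) → Fin (k + k) × Bool) := ⟨fun _ => (⟨0, by omega⟩, true)⟩
  obtain ⟨t, L, h1, h2, h3, h4, h5⟩ := iter hn hk hmix hy hs hs1 hs2 I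
  have h6 : 2 * (t : Perm (Fin n)).support.card ^ 2 ≤ n := by
    rcases h5 with h | h
    · exact h
    · exfalso
      have h7 : ((t : Perm (Fin n)).support.card : ℝ) < 1 := by linarith
      have h8 : (t : Perm (Fin n)).support.card = 0 := by
        have : (t : Perm (Fin n)).support.card < 1 := by exact_mod_cast h7
        omega
      rw [Perm.card_support_eq_zero] at h8
      exact coe_ne_one h1 h8
  obtain ⟨v, τ, hv⟩ := last hn hmix (t : Perm (Fin n)) (coe_ne_one h1) h6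
  obtain ⟨g, hg⟩ : ∃ g : Alt n, g = wrd (xl x) v := ⟨_, rfl⟩
  have hgv : gx (xl x) m v = (g : Perm (Fin n)) := by rw [hg]; rfl
  have hgl : Len y (2 * m) g := by rw [hg]; exact Len_xl y x hy (2 * m) v
  rw [hgv, ← cjA_coe] at hv
  have hv' : cjA t g = c3 τ := Subtype.ext hv
  have h7 : Len y (4 * L + 4 * (2 * m)) (c3 τ) := by rw [← hv']; exact cjA_len h2 hgl
  obtain ⟨w, hw1, hw2⟩ := hconn τ κ
  have hw3 : Len y Lc w := by
    obtain ⟨l', e1, e2⟩ := hw1
    have h8 : ∀ u ∈ l'.map (sl x), Len y 1 u := by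
      intro u hu
      rw [List.mem_map] at hu
      obtain ⟨a, -, rfl⟩ := hu
      unfold sl
      split_ifs
      · exact hy _
      · exact (hy _).inv
    have h9 := Len.list _ h8
    rw [e2, mul_one, List.length_map] at h9
    exact h9.mono e1
  have h8 : c3 κ = w * c3 τ * w⁻¹ := by
    rw [← hw2]
    exact HIGHE.c3_conj _ _
  rw [h8]
  refine ((hw3.mul h7).mul hw3.inv).mono ?_
  omega

end

end Pool.Agent.K1H7.OE
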