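import Pool.Agent.K1H7.OE.Main

/-!
Assembly.
-/

set_option autoImplicit false

namespace Pool.Agent.K1H7.OE
open RC14 RC852 DM852 TE852 Finset Filter Equiv Topology

lemma En_app {G : Type*} [Group G] {V : Type*} [NormedAddCommGroup V] [InnerProductSpace ℂ V]
    (ρ : G →* (V ≃ₗᵢ[ℂ] V)) {k l : ℕ} (x : Fin k → G) (a : Fin l → G) (v : V) :
    En ρ x v ≤ En ρ (Fin.append x a) v := by
  rw [En_append]
  have := RC14.En_nonneg ρ a v
  linarith

/-- the deterministic part -/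
theorem det (δ : ℝ) (hδ : 0 < δ) (hδ1 : δ < 1) (k : ℕ) (hk : 1 ≤ k) (c : ℝ) (hc : 0 < c) :
    ∀ᶠ n : ℕ in atTop, ∀ x : Fin k → Alt n, Good1 n (Rr (1 - δ / 2) n) c x →
      ∀ (l : ℕ) (a : Fin l → Alt n) (q : ℕ) (s : Alt n), Len (Fin.append x a) q s → s ≠ 1 →
        100 * (s : Perm (Fin n)).support.card ≤ n →
        Expanding ((n : ℝ) ^ (-δ) / ((l + 1) * (q : ℝ) ^ 2)) (Fin.append x a) := by
  obtain ⟨C, hC, hch⟩ := chain k hk c hc
  have hk' : (1 : ℝ) ≤ k := by exact_mod_cast hk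
  have t2 : Tendsto (fun n : ℕ => (n : ℝ)) atTop atTop := tendsto_natCast_atTop_atTop
  have t1 : Tendsto (fun n : ℕ => Real.log (n : ℝ)) atTop atTop :=
    Real.tendsto_log_atTop.comp t2
  -- the numerical conditions
  have h1 : ∀ᶠ n : ℕ in atTop, 42 * k * C ^ 2 * Real.log n ^ 6 ≤ (n : ℝ) ^ (δ / 2) := by
    have e1 := isLittleO_log_rpow_rpow_atTop (6 : ℝ) (show (0 : ℝ) < δ / 2 by linarith)
    have e2 := e1.bound (show (0 : ℝ) < 1 / (42 * k * C ^ 2) by positivity)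
    filter_upwards [t2.eventually e2, t1.eventually_ge_atTop 0, t2.eventually_ge_atTop 0]
      with n h2 h3 h4
    rw [Real.norm_of_nonneg (by positivity), Real.norm_of_nonneg (by positivity)] at h2
    rw [one_div, inv_mul_eq_div, le_div_iff₀ (by positivity)] at h2
    have e3 : Real.log (n : ℝ) ^ (6 : ℝ) = Real.log n ^ 6 := by
      have : ((6 : ℕ) : ℝ) = (6 : ℝ) := by norm_num
      rw [← this, Real.rpow_natCast]
    rw [e3] at h2
    linarith
  have h2 : ∀ᶠ n : ℕ in atTop, 100 ≤ (n : ℝ) ^ (δ / 2) :=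
    ((tendsto_rpow_atTop (show (0 : ℝ) < δ / 2 by linarith)).comp t2).eventually_ge_atTop 100
  have h3 : ∀ᶠ n : ℕ in atTop, 3 ≤ (n : ℝ) ^ (1 - δ / 2) :=
    ((tendsto_rpow_atTop (show (0 : ℝ) < 1 - δ / 2 by linarith)).comp t2).eventually_ge_atTop 3
  have h4 : ∀ᶠ n : ℕ in atTop, 2 * k / c ≤ (n : ℝ) ^ δ :=
    ((tendsto_rpow_atTop hδ).comp t2).eventually_ge_atTop _
  filter_upwards [hch, h1, h2, h3, h4, eventually_ge_atTop 1000] with n hch h1 h2 h3 h4 hn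
  intro x hx l a q s hs hs1 hs2
  have hnR : (1000 : ℝ) ≤ n := by exact_mod_cast hn
  have hnp : (0 : ℝ) < n := by linarith
  obtain ⟨y, hy⟩ : ∃ y, y = Fin.append x a := ⟨_, rfl⟩
  rw [← hy] at hs ⊢
  have hyx : ∀ i, Len y 1 (x i) := by
    intro i
    have : x i = y (Fin.castAdd l i) := by rw [hy, Fin.append_left]
    rw [this]
    exact Len.letter _
  have hq : 1 ≤ q := by
    by_contra hcon
    have : q = 0 := by omega
    subst this
    obtain ⟨w, hw1, hw2⟩ := hs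
    have : w = [] := List.length_eq_zero_iff.1 (by omega)
    rw [this] at hw2
    exact hs1 hw2.symm
  have hq' : (1 : ℝ) ≤ q := by exact_mod_cast hq
  have hR3 : 3 ≤ Rr (1 - δ / 2) n := by
    unfold Rr
    apply Nat.le_floor
    exact_mod_cast h3
  obtain ⟨L, hL1, hL2⟩ := hch x (fun j h1 h2 => hx j h1 (h2.trans hR3)) (k + l) y hyx q s hq hs hs1 hs2
  -- levels
  obtain ⟨P, hP⟩ : ∃ P : ℝ, P = (n : ℝ) ^ (δ / 2) := ⟨_, rfl⟩
  rw [← hP] at h1 h2
  obtain ⟨N, hN⟩ : ∃ N : ℕ, N = ⌈2 * P⌉₊ := ⟨_, rfl⟩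
  have hN1 : 2 * P ≤ N := by rw [hN]; exact Nat.le_ceil _
  have hN2 : (N : ℝ) ≤ 3 * P := by
    have := (Nat.ceil_lt_add_one (show 0 ≤ 2 * P by linarith)).le
    rw [← hN] at this
    linarith
  have hN100 : 100 ≤ N := by
    have : (100 : ℝ) ≤ N := by linarith
    exact_mod_cast this
  have hPP : P * (n : ℝ) ^ (1 - δ / 2) = n := by
    rw [hP, ← Real.rpow_add hnp]
    have : δ / 2 + (1 - δ / 2) = 1 := by ring
    rw [this, Real.rpow_one]
  have hr : ∀ j : ℕ, N * j ≤ n → j ≤ Rr (1 - δ / 2) n := by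
    intro j hj
    unfold Rr
    apply Nat.le_floor
    have e1 : (N : ℝ) * j ≤ n := by exact_mod_cast hj
    have e2 : P * j ≤ P * (n : ℝ) ^ (1 - δ / 2) := by
      rw [hPP]
      have : P * (j : ℝ) ≤ N * j := by
        have hj0 : (0 : ℝ) ≤ j := Nat.cast_nonneg j
        nlinarith
      linarith
    exact le_of_mul_le_mul_left e2 (by linarith)
  -- the constant
  obtain ⟨ε, hε⟩ : ∃ ε, ε = (n : ℝ) ^ (-δ) / ((l + 1) * (q : ℝ) ^ 2) := ⟨_, rfl⟩
  have hε0 : 0 < ε := by rw [hε]; positivity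
  have hl0 : (0 : ℝ) ≤ l := Nat.cast_nonneg l
  have hkl : (0 : ℝ) < (k + l : ℕ) := by
    have : 0 < k + l := by omega
    exact_mod_cast this
  have hkl2 : ((k + l : ℕ) : ℝ) ≤ k * (l + 1) := by push_cast; nlinarith
  have hδn : (n : ℝ) ^ (-δ) = 1 / (P * P) := by
    rw [hP, ← Real.rpow_add hnp, Real.rpow_neg hnp.le]
    have : δ / 2 + δ / 2 = δ := by ring
    rw [this, one_div]
  have hP2 : P * P = (n : ℝ) ^ δ := by
    rw [hP, ← Real.rpow_add hnp]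
    have : δ / 2 + δ / 2 = δ := by ring
    rw [this]
  have hεkl : ε * (2 * (k + l : ℕ)) ≤ 2 * k / (P * P * (q : ℝ) ^ 2) := by
    rw [hε, hδn]
    have e1 : 1 / (P * P) / ((l + 1) * (q : ℝ) ^ 2) * (2 * ((k + l : ℕ) : ℝ)) =
        2 * ((k + l : ℕ) : ℝ) / (l + 1) / (P * P * (q : ℝ) ^ 2) := by
      field_simp
    rw [e1]
    apply div_le_div_of_nonneg_right _ (by positivity)
    rw [div_le_iff₀ (by positivity)]
    linarith
  have hfin := FRALL n (Rr (1 - δ / 2) n) (k + l) (by omega) y (ε * (2 * (k + l : ℕ)))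
    (by positivity) ?_ ?_
  · have e : ε * (2 * ((k + l : ℕ) : ℝ)) / (2 * ((k + l : ℕ) : ℝ)) = ε := by
      field_simp
    rw [e, hε] at hfin
    exact hfin
  · intro j hj1 hj2 f hf
    have e1 := hx j hj1 hj2 f hf
    have e2 : En (repA j n) x f ≤ En (repA j n) y f := by rw [hy]; exact En_app _ _ _ _
    have e3 : ε * (2 * (k + l : ℕ)) ≤ c := by
      refine hεkl.trans ?_
      rw [div_le_iff₀ (by positivity)]
      have h5 : 2 * k ≤ c * (P * P) := by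
        rw [hP2]
        rw [div_le_iff₀ hc] at h4
        linarith
      have h6 : (1 : ℝ) ≤ (q : ℝ) ^ 2 := one_le_pow₀ hq'
      have h7 : 0 ≤ c * (P * P) := by positivity
      nlinarith
    have e4 : ε * (2 * (k + l : ℕ)) * ‖f‖ ^ 2 ≤ c * ‖f‖ ^ 2 :=
      mul_le_mul_of_nonneg_right e3 (by positivity)
    linarith
  · intro f hf
    have e1 := high y L hL2 N (Rr (1 - δ / 2) n) hN100 hn hr f hf
    have hE : 0 ≤ En (RR n) y f := RC14.En_nonneg _ _ _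
    obtain ⟨Z, hZ⟩ : ∃ Z, Z = Real.log n := ⟨_, rfl⟩
    rw [← hZ] at hL1 h1
    have hZ0 : 0 ≤ Z := by rw [hZ]; exact Real.log_nonneg (by linarith)
    have e2 : (L : ℝ) ^ 2 ≤ C ^ 2 * Z ^ 6 * (q : ℝ) ^ 2 := by
      calc (L : ℝ) ^ 2 ≤ (C * Z ^ 3 * q) ^ 2 := pow_le_pow_left₀ (by positivity) hL1 2
        _ = _ := by ring
    have e3 : 1 / (7 * (3 * P)) * ‖f‖ ^ 2 ≤ C ^ 2 * Z ^ 6 * (q : ℝ) ^ 2 * En (RR n) y f := by
      calc 1 / (7 * (3 * P)) * ‖f‖ ^ 2 ≤ 1 / (7 * N) * ‖f‖ ^ 2 := by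
            apply mul_le_mul_of_nonneg_right _ (by positivity)
            apply one_div_le_one_div_of_le
            · have : (100 : ℝ) ≤ N := by exact_mod_cast hN100
              linarith
            · linarith
        _ ≤ (L : ℝ) ^ 2 * En (RR n) y f := e1
        _ ≤ _ := mul_le_mul_of_nonneg_right e2 hE
    have e4 : ε * (2 * (k + l : ℕ)) * ‖f‖ ^ 2 ≤ 2 * k / (P * P * (q : ℝ) ^ 2) * ‖f‖ ^ 2 :=
      mul_le_mul_of_nonneg_right hεkl (by positivity)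
    refine e4.trans ?_
    have hPp : 0 < P := by linarith
    have e5 : 2 * k / (P * P * (q : ℝ) ^ 2) * ‖f‖ ^ 2 =
        42 * k / (P * (q : ℝ) ^ 2) * (1 / (7 * (3 * P)) * ‖f‖ ^ 2) := by
      field_simp
      ring
    rw [e5]
    calc 42 * k / (P * (q : ℝ) ^ 2) * (1 / (7 * (3 * P)) * ‖f‖ ^ 2) ≤
        42 * k / (P * (q : ℝ) ^ 2) * (C ^ 2 * Z ^ 6 * (q : ℝ) ^ 2 * En (RR n) y f) :=
          mul_le_mul_of_nonneg_left e3 (by positivity)
      _ = (42 * k * C ^ 2 * Z ^ 6) / P * En (RR n) y f := by field_simp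
      _ ≤ 1 * En (RR n) y f := by
          apply mul_le_mul_of_nonneg_right _ hE
          rw [div_le_one hPp]
          exact h1
      _ = _ := one_mul _

/-- the main theorem -/
theorem main (δ : ℝ) (hδ : 0 < δ) : ∃ k₀ : ℕ, ∀ k ≥ k₀, ∀ ε₀ : ℝ, 0 < ε₀ →
    ∀ᶠ n : ℕ in atTop, (Nat.card {x : Fin k → Alt n // ¬ ∀ (l : ℕ) (a : Fin l → Alt n) (q : ℕ)
      (s : Alt n), Len (Fin.append x a) q s → s ≠ 1 →
        100 * (s : Perm (Fin n)).support.card ≤ n →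
        Expanding ((n : ℝ) ^ (-δ) / ((l + 1) * (q : ℝ) ^ 2)) (Fin.append x a)} : ℝ) ≤
      ε₀ * (Fintype.card (Alt n) : ℝ) ^ k := by
  obtain ⟨δ', hδ', h1, h2⟩ : ∃ δ' : ℝ, 0 < δ' ∧ δ' < 1 ∧ δ' ≤ δ :=
    ⟨min δ (1 / 2), lt_min hδ (by norm_num), lt_of_le_of_lt (min_le_right _ _) (by norm_num),
      min_le_left _ _⟩
  obtain ⟨k0, hk0⟩ := GAPE (1 - δ' / 2) (TEMAIN (1 - δ' / 2) (by linarith))
  refine ⟨k0 + 1, fun k hk ε₀ hε₀ => ?_⟩
  obtain ⟨c, hc, B, hB, hgap⟩ := hk0 k (by omega)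
  have t2 : Tendsto (fun n : ℕ => (n : ℝ)) atTop atTop := tendsto_natCast_atTop_atTop
  filter_upwards [hgap, det δ' hδ' h1 k (by omega) c hc, t2.eventually_ge_atTop (B / ε₀),
    t2.eventually_ge_atTop 1] with n hgap hdet hB2 hn
  have hnp : (0 : ℝ) < n := by linarith
  have h3 := RC14.card_mono (fun x : Fin k → Alt n => ¬ ∀ (l : ℕ) (a : Fin l → Alt n) (q : ℕ)
      (s : Alt n), Len (Fin.append x a) q s → s ≠ 1 →
        100 * (s : Perm (Fin n)).support.card ≤ n →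
        Expanding ((n : ℝ) ^ (-δ) / ((l + 1) * (q : ℝ) ^ 2)) (Fin.append x a))
      (fun x => ¬ Good1 n (Rr (1 - δ' / 2) n) c x) (fun x hx hgood => hx (by
        intro l a q s hs hs1 hs2
        obtain ⟨e1, e2⟩ := hdet x hgood l a q s hs hs1 hs2
        refine ⟨e1, fun f hf => (e2 f hf).trans ?_⟩
        apply mul_le_mul_of_nonneg_right _ (Finset.sum_nonneg fun g _ => sq_nonneg _)
        have e3 : (n : ℝ) ^ (-δ) ≤ (n : ℝ) ^ (-δ') :=
          Real.rpow_le_rpow_of_exponent_le hn (by linarith)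
        have e4 : (n : ℝ) ^ (-δ) / ((l + 1) * (q : ℝ) ^ 2) ≤
            (n : ℝ) ^ (-δ') / ((l + 1) * (q : ℝ) ^ 2) :=
          div_le_div_of_nonneg_right e3 (by positivity)
        linarith))
  calc _ ≤ (Nat.card {x : Fin k → Alt n // ¬ Good1 n (Rr (1 - δ' / 2) n) c x} : ℝ) := by
        exact_mod_cast h3
    _ ≤ B / (n : ℝ) * (Fintype.card (Alt n) : ℝ) ^ k := hgap
    _ ≤ _ := by
        apply mul_le_mul_of_nonneg_right _ (by positivity)
        rw [div_le_iff₀ hnp]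
        rw [div_le_iff₀ hε₀] at hB2
        linarith

end Pool.Agent.K1H7.OE
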