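import Pool.Agent.K1H7.OE.Chain
import Pool.Agent.K1H7.EP.High
import Pool.Agent.H477R2.TE.GAPE
import Pool.Agent.H852R2.TE.MAIN
import Pool.Agent.H20R2.RC.FRLOW

/-!
The spectral gap of a tuple which contains `k` random elements and has a nontrivial element of
small support in its ball of radius `q`.
-/

set_option autoImplicit false

namespace Pool.Agent.K1H7.OE
open RC14 RC852 DM852 TE852 Finset Filter Equiv Topology

/-- all 3-cycles are short products, asymptotic form -/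
theorem chain (k : ℕ) (hk : 1 ≤ k) (c : ℝ) (hc : 0 < c) : ∃ C : ℝ, 0 < C ∧ ∀ᶠ n : ℕ in atTop,
    ∀ x : Fin k → Alt n, Good1 n 3 c x → ∀ (l : ℕ) (y : Fin l → Alt n), (∀ i, Len y 1 (x i)) →
    ∀ (q : ℕ) (s : Alt n), 1 ≤ q → Len y q s → s ≠ 1 →
      100 * (s : Perm (Fin n)).support.card ≤ n →
      ∃ L : ℕ, (L : ℝ) ≤ C * Real.log n ^ 3 * q ∧ ∀ κ : Tup 3 n, Len y L (c3 κ) := by
  obtain ⟨C1, hC1, hPM⟩ := PAIRMIX k hk c hc
  have hk' : (1 : ℝ) ≤ k := by exact_mod_cast hk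
  obtain ⟨K1, hK1⟩ : ∃ K1 : ℝ, K1 = 8 * k / c := ⟨_, rfl⟩
  have hK1p : 0 < K1 := by rw [hK1]; positivity
  refine ⟨64 * (5 + 4 * C1) + 2 * (4 * K1 + 2), by positivity, ?_⟩
  have t1 : Tendsto (fun n : ℕ => Real.log (n : ℝ)) atTop atTop :=
    Real.tendsto_log_atTop.comp tendsto_natCast_atTop_atTop
  filter_upwards [hPM, eventually_ge_atTop 100, t1.eventually_ge_atTop 1] with n hPM hn hl
  intro x hx l y hy q s hq hs hs1 hs2
  have hnR : (100 : ℝ) ≤ n := by exact_mod_cast hn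
  have hnp : (0 : ℝ) < n := by linarith
  obtain ⟨Z, hZ⟩ : ∃ Z, Z = Real.log n := ⟨_, rfl⟩
  rw [← hZ] at hl
  obtain ⟨m, hm⟩ : ∃ m : ℕ, m = ⌈C1 * Z⌉₊ := ⟨_, rfl⟩
  have hm1 : (m : ℝ) ≤ (C1 + 1) * Z := by
    have := (Nat.ceil_lt_add_one (show 0 ≤ C1 * Z by positivity)).le
    rw [← hm] at this
    linarith
  have hmix : Mix2 (gx (xl x) m) := (hPM x (fun j hj1 hj2 => hx j hj1 (by omega)) m (by
    rw [hm, ← hZ]; exact Nat.le_ceil _)).1
  obtain ⟨Lc, hLc⟩ : ∃ Lc : ℕ, Lc = ⌈K1 * (3 * Z + 1) + 1⌉₊ := ⟨_, rfl⟩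
  have hLc1 : (Lc : ℝ) ≤ (4 * K1 + 2) * Z := by
    have := (Nat.ceil_lt_add_one (show 0 ≤ K1 * (3 * Z + 1) + 1 by positivity)).le
    rw [← hLc] at this
    nlinarith
  have hconn : ∀ a a' : Tup 3 n, ∃ g : Alt n, Len x Lc g ∧ mv (g : Perm (Fin n)) a = a' := by
    refine CONN n 3 k (by omega) hk c hc x hx Lc ?_
    rw [hLc, ← hZ, ← hK1]
    push_cast
    exact Nat.le_ceil _
  -- the number of steps
  obtain ⟨A, hA⟩ : ∃ A : ℕ, A = ⌈Z⌉₊ := ⟨_, rfl⟩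
  have hA1 : Z ≤ A := by rw [hA]; exact Nat.le_ceil _
  have hA2 : (A : ℝ) ≤ 2 * Z := by
    have := (Nat.ceil_lt_add_one (show 0 ≤ Z by linarith)).le
    rw [← hA] at this
    linarith
  have hA3 : 1 < A := by
    have h1 : (4 : ℝ) < Z := by
      rw [hZ, Real.lt_log_iff_exp_lt hnp]
      have : Real.exp 4 = Real.exp 1 ^ 4 := by rw [← Real.exp_nat_mul]; norm_num
      rw [this]
      have h2 := Real.exp_one_lt_d9
      have h3 := Real.exp_pos 1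
      calc Real.exp 1 ^ 4 < (2.72 : ℝ) ^ 4 := by
            apply pow_lt_pow_left₀ (by linarith) h3.le (by norm_num)
        _ < 100 := by norm_num
        _ ≤ n := hnR
    have h2 : (1 : ℝ) < A := by linarith
    exact_mod_cast h2
  obtain ⟨I, hI⟩ : ∃ I : ℕ, I = Nat.clog 2 A := ⟨_, rfl⟩
  have hI1 : A ≤ 2 ^ I := by rw [hI]; exact Nat.le_pow_clog (by norm_num) A
  have hI2 : 2 ^ I ≤ 2 * A := by
    have h1 : 2 ^ (Nat.clog 2 A).pred < A := Nat.pow_pred_clog_lt_self (by norm_num) hA3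
    have h2 : 0 < I := by rw [hI]; exact Nat.clog_pos (by norm_num) hA3
    rw [← hI] at h1
    have h3 : 2 ^ I = 2 * 2 ^ I.pred := by
      have e : I.pred + 1 = I := Nat.succ_pred_eq_of_pos h2
      rw [← pow_succ', e]
    omega
  have hI3 : (n : ℝ) * (1 / 5 : ℝ) ^ (2 ^ I) < 18 := by
    have h1 : (1 / 5 : ℝ) ≤ Real.exp (-1) := by
      rw [Real.exp_neg, one_div]
      apply inv_anti₀ (Real.exp_pos 1)
      linarith [Real.exp_one_lt_d9]
    have h2 : (1 / 5 : ℝ) ^ (2 ^ I) ≤ Real.exp (-1) ^ (2 ^ I) :=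
      pow_le_pow_left₀ (by norm_num) h1 _
    have h3 : Real.exp (-1) ^ (2 ^ I) ≤ Real.exp (-Z) := by
      rw [← Real.exp_nat_mul]
      apply Real.exp_le_exp.2
      have h4 : (A : ℝ) ≤ ((2 ^ I : ℕ) : ℝ) := by exact_mod_cast hI1
      linarith
    have h4 : (n : ℝ) = Real.exp Z := by rw [hZ, Real.exp_log hnp]
    calc (n : ℝ) * (1 / 5 : ℝ) ^ (2 ^ I) ≤ Real.exp Z * Real.exp (-Z) := by
          rw [← h4]
          exact mul_le_mul_of_nonneg_left (h2.trans h3) hnp.le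
      _ = 1 := by rw [← Real.exp_add]; simp
      _ < 18 := by norm_num
  refine ⟨4 * (4 ^ I * (q + 4 * m)) + 2 * Lc, ?_, fun κ =>
    chain1 hn hk hmix hy hs hs1 hs2 I hI3 Lc hconn κ⟩
  have hq' : (1 : ℝ) ≤ q := by exact_mod_cast hq
  have h4I : ((4 ^ I : ℕ) : ℝ) ≤ 16 * Z ^ 2 := by
    have e1 : 4 ^ I = (2 ^ I) ^ 2 := by
      rw [← pow_mul, mul_comm, pow_mul]; norm_num
    have e2 : ((2 ^ I : ℕ) : ℝ) ≤ 4 * Z := by
      have : ((2 ^ I : ℕ) : ℝ) ≤ 2 * A := by exact_mod_cast hI2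
      linarith
    rw [e1]
    push_cast at e2 ⊢
    calc ((2 : ℝ) ^ I) ^ 2 ≤ (4 * Z) ^ 2 := pow_le_pow_left₀ (by positivity) e2 2
      _ = _ := by ring
  push_cast at h4I ⊢
  rw [← hZ]
  have h5 : (q : ℝ) + 4 * m ≤ (5 + 4 * C1) * Z * q := by
    have e1 : (q : ℝ) ≤ Z * q := by nlinarith
    have e2 : 4 * (m : ℝ) ≤ 4 * ((C1 + 1) * Z) * q := by
      have : 4 * (m : ℝ) ≤ 4 * ((C1 + 1) * Z) := by linarith
      have h0 : 0 ≤ 4 * ((C1 + 1) * Z) := by positivity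
      nlinarith
    linarith
  have h6 : (Lc : ℝ) ≤ (4 * K1 + 2) * Z ^ 3 * q := by
    have e1 : Z ≤ Z ^ 3 := by nlinarith [sq_nonneg (Z - 1), mul_pos (show 0 < Z by linarith) (show 0 < Z by linarith)]
    have e2 : Z ^ 3 ≤ Z ^ 3 * q := by
      have : 0 ≤ Z ^ 3 := by positivity
      nlinarith
    calc (Lc : ℝ) ≤ (4 * K1 + 2) * Z := hLc1
      _ ≤ (4 * K1 + 2) * (Z ^ 3 * q) := mul_le_mul_of_nonneg_left (e1.trans e2) (by positivity)
      _ = _ := by ring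
  calc (4 : ℝ) * (4 ^ I * (q + 4 * m)) + 2 * Lc
      ≤ 4 * ((16 * Z ^ 2) * ((5 + 4 * C1) * Z * q)) + 2 * ((4 * K1 + 2) * Z ^ 3 * q) := by
        have : (4 : ℝ) ^ I * (q + 4 * m) ≤ (16 * Z ^ 2) * ((5 + 4 * C1) * Z * q) :=
          mul_le_mul h4I h5 (by positivity) (by positivity)
        linarith
    _ = _ := by ring

section
variable {G : Type*} [Group G] {V : Type*} [NormedAddCommGroup V] [InnerProductSpace ℂ V]

lemma disp_list (ρ : G →* (V ≃ₗᵢ[ℂ] V)) (v : V) (η : ℝ) (l : List G)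
    (h : ∀ g ∈ l, ‖ρ g v - v‖ ≤ η) : ‖ρ l.prod v - v‖ ≤ l.length * η := by
  induction l with
  | nil => simp
  | cons g l ih =>
    rw [List.prod_cons, map_mul, List.length_cons]
    have h1 : (ρ g * ρ l.prod) v - v = ρ g (ρ l.prod v - v) + (ρ g v - v) := by
      change ρ g (ρ l.prod v) - v = _
      rw [map_sub]; abel
    rw [h1]
    refine (norm_add_le _ _).trans ?_
    rw [(ρ g).norm_map]
    have h2 := ih fun g' hg' => h g' (List.mem_cons_of_mem _ hg')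
    have h3 := h g List.mem_cons_self
    push_cast
    linarith

lemma disp_inv (ρ : G →* (V ≃ₗᵢ[ℂ] V)) (v : V) (g : G) : ‖ρ g⁻¹ v - v‖ = ‖ρ g v - v‖ := by
  have h1 : ρ g (ρ g⁻¹ v - v) = v - ρ g v := by
    have : ρ g (ρ g⁻¹ v) = (ρ g * ρ g⁻¹) v := rfl
    rw [map_sub, this, ← map_mul, mul_inv_cancel, map_one]; rfl
  rw [← (ρ g).norm_map (ρ g⁻¹ v - v), h1, norm_sub_rev]

lemma disp_len {l : ℕ} (ρ : G →* (V ≃ₗᵢ[ℂ] V)) (y : Fin l → G) (v : V) (L : ℕ) (g : G)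
    (hg : Len y L g) : ‖ρ g v - v‖ ≤ L * √(En ρ y v) := by
  obtain ⟨w, h1, rfl⟩ := hg
  have h2 : ∀ u ∈ w.map (sl y), ‖ρ u v - v‖ ≤ √(En ρ y v) := by
    intro u hu
    rw [List.mem_map] at hu
    obtain ⟨a, -, rfl⟩ := hu
    have h3 : ‖ρ (y a.1) v - v‖ ≤ √(En ρ y v) := by
      apply Real.le_sqrt_of_sq_le
      unfold En
      exact Finset.single_le_sum (f := fun i => ‖ρ (y i) v - v‖ ^ 2) (fun i _ => sq_nonneg _)
        (Finset.mem_univ a.1)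
    unfold sl
    split_ifs
    · exact h3
    · rw [disp_inv]; exact h3
  refine (disp_list ρ v _ _ h2).trans ?_
  rw [List.length_map]
  exact mul_le_mul_of_nonneg_right (by exact_mod_cast h1) (Real.sqrt_nonneg _)
end

/-- the high levels -/
theorem high {n l : ℕ} (y : Fin l → Alt n) (L : ℕ) (hL : ∀ κ : Tup 3 n, Len y L (c3 κ))
    (N r : ℕ) (hN : 100 ≤ N) (hn : 1000 ≤ n) (hr : ∀ k : ℕ, N * k ≤ n → k ≤ r)
    (v : FA n) (hv : v ∈ HH r n) : 1 / (7 * N) * ‖v‖ ^ 2 ≤ (L : ℝ) ^ 2 * En (RR n) y v := by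
  have h1 := EP.high_energy N n r hN hn hr v hv
  have h0 : 0 ≤ En (RR n) y v := RC14.En_nonneg _ _ _
  have h2 : ∑ s : Tup 3 n, ‖RR n (c3 s) v - v‖ ^ 2 ≤
      Fintype.card (Tup 3 n) * ((L : ℝ) ^ 2 * En (RR n) y v) := by
    calc ∑ s : Tup 3 n, ‖RR n (c3 s) v - v‖ ^ 2 ≤
        ∑ s : Tup 3 n, ((L : ℝ) ^ 2 * En (RR n) y v) := by
          refine Finset.sum_le_sum fun s _ => ?_
          have h3 := disp_len (RR n) y v L (c3 s) (hL s)
          calc ‖RR n (c3 s) v - v‖ ^ 2 ≤ (L * √(En (RR n) y v)) ^ 2 :=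
                pow_le_pow_left₀ (norm_nonneg _) h3 2
            _ = _ := by rw [mul_pow, Real.sq_sqrt h0]
      _ = _ := by rw [Finset.sum_const, Finset.card_univ, nsmul_eq_mul]
  have h4 : (0 : ℝ) < Fintype.card (Tup 3 n) := by
    have : Nonempty (Tup 3 n) := ⟨Fin.castLEEmb (by omega)⟩
    exact_mod_cast Fintype.card_pos
  refine le_of_mul_le_mul_left ?_ h4
  calc (Fintype.card (Tup 3 n) : ℝ) * (1 / (7 * N) * ‖v‖ ^ 2) =
      1 / (7 * (N : ℝ)) * Fintype.card (Tup 3 n) * ‖v‖ ^ 2 := by ring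
    _ ≤ _ := h1.trans h2

end Pool.Agent.K1H7.OE
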