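import Pool.Agent.H959R2.DM.SHRINK

/-!
One step of the reduction of supports by commutators, and the last step, to a 3-cycle.
-/

set_option autoImplicit false

namespace Pool.Agent.K1H7.OE
open RC14 RC852 DM852 DM852.SHRINK Finset Filter Equiv

/-- the commutator of `s` with its conjugate by `g` -/
def cj {n : ℕ} (s g : Perm (Fin n)) : Perm (Fin n) := s⁻¹ * (g * s * g⁻¹)⁻¹ * s * (g * s * g⁻¹)

lemma num1 {n : ℕ} (hn : 100 ≤ n) {k S c : ℝ} (hS : (1 - 1 / (n : ℝ)) * k / n ≤ S) (hk : 0 < k)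
    (hc : c = (1 + 1 / (n : ℝ)) * k / (n * (n - 1))) : 0 < S ∧ 0 ≤ c ∧ c * n ≤ 26 / 25 * S := by
  have hn0 : (100 : ℝ) ≤ n := by exact_mod_cast hn
  have h1 : (0 : ℝ) < n := by linarith
  have h2 : (0 : ℝ) < n - 1 := by linarith
  have h3 : (1 : ℝ) / n ≤ 1 / 100 := one_div_le_one_div_of_le (by norm_num) hn0
  have h4 : 0 < (1 - 1 / (n : ℝ)) * k / n := by
    apply div_pos _ h1
    apply mul_pos _ hk
    linarith
  refine ⟨lt_of_lt_of_le h4 hS, ?_, ?_⟩
  · rw [hc]; positivity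
  · have e1 : c * n = ((n : ℝ) + 1) / (n * (n - 1)) * k := by
      rw [hc]; field_simp
    have e2 : (1 - 1 / (n : ℝ)) * k / n = ((n : ℝ) - 1) / (n * n) * k := by
      field_simp
    rw [e2] at hS
    rw [e1]
    have h5 : ((n : ℝ) + 1) / (n * (n - 1)) ≤ 26 / 25 * (((n : ℝ) - 1) / (n * n)) := by
      rw [div_le_iff₀ (by positivity)]
      have e3 : 26 / 25 * (((n : ℝ) - 1) / (n * n)) * (n * (n - 1)) =
          26 / 25 * (n - 1) ^ 2 / n := by field_simp
      rw [e3, le_div_iff₀ h1]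
      nlinarith
    calc ((n : ℝ) + 1) / (n * (n - 1)) * k ≤ 26 / 25 * (((n : ℝ) - 1) / (n * n)) * k :=
          mul_le_mul_of_nonneg_right h5 hk.le
      _ = 26 / 25 * (((n : ℝ) - 1) / (n * n) * k) := by ring
      _ ≤ 26 / 25 * S := by linarith

section
variable {n : ℕ} {K : Type} [Fintype K] [Nonempty K]

omit [Nonempty K] in
lemma sum_e_I (hn : 2 ≤ n) {g : K → Perm (Fin n)} (hg : Mix2 g) (s : Perm (Fin n)) (p : Fin n)
    (hp : p ∈ s.support) :
    ∑ v, e g (p, p) v * ((s.support ∩ (g v * s * (g v)⁻¹).support).card : ℝ) ≤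
      ∑ v, e g (p, p) v + (s.support.card : ℝ) ^ 2 *
        ((1 + 1 / (n : ℝ)) * Fintype.card K / (n * (n - 1))) := by
  classical
  have h1 : ∑ v, e g (p, p) v * ((s.support ∩ (g v * s * (g v)⁻¹).support).card : ℝ) =
      ∑ x ∈ s.support ×ˢ s.support, ∑ v, e g (p, p) v * e g x v := by
    rw [Finset.sum_comm]
    refine Finset.sum_congr rfl fun v _ => ?_
    rw [I_eq, Finset.mul_sum]
  rw [h1]
  refine (Finset.sum_le_sum fun x _ => M_le hn hg (p, p) x).trans ?_
  rw [Finset.sum_add_distrib, Finset.sum_ite_eq, if_pos (by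
    rw [mem_product]; exact ⟨hp, hp⟩), Finset.sum_const, Finset.card_product, nsmul_eq_mul]
  push_cast
  rw [sq]

lemma e_cases {K : Type} (g : K → Perm (Fin n)) (x : Fin n × Fin n) (v : K) :
    e g x v = 0 ∨ (e g x v = 1 ∧ g v x.2 = x.1) := by
  unfold e
  split_ifs with h
  · right; exact ⟨rfl, h⟩
  · left; rfl

lemma mem_conj' (g s : Perm (Fin n)) (p : Fin n) (hp : p ∈ s.support) (h : g p = p) :
    p ∈ (g * s * g⁻¹).support := by
  rw [Perm.mem_support]
  have h1 : g⁻¹ p = p := by rw [Perm.inv_eq_iff_eq]; exact h.symm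
  rw [Perm.mul_apply, Perm.mul_apply, h1]
  intro h2
  rw [← h] at h2
  have h3 := g.injective (h2.trans (by rw [h]))
  exact (Perm.mem_support.1 hp) (by rw [h] at h3; exact h3)

lemma inv_app' {n : ℕ} (f : Perm (Fin n)) (x : Fin n) : f⁻¹ (f x) = x := f.symm_apply_apply x

/-- one commutator step -/
lemma reduce (hn : 100 ≤ n) {g : K → Perm (Fin n)} (hg : Mix2 g) (s : Perm (Fin n)) (hs : s ≠ 1)
    (hs2 : 100 * s.support.card ≤ n) :
    ∃ v : K, cj s (g v) ≠ 1 ∧
      ((cj s (g v)).support.card : ℝ) ≤ 6 * (1 + (s.support.card : ℝ) ^ 2 / n) := by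
  classical
  have hn0 : (100 : ℝ) ≤ n := by exact_mod_cast hn
  have hnp : (0 : ℝ) < n := by linarith
  obtain ⟨p, hp⟩ : ∃ p, p ∈ s.support := by
    by_contra hcon
    push Not at hcon
    exact hs (Perm.support_eq_empty_iff.1 (Finset.eq_empty_of_forall_notMem hcon))
  obtain ⟨ρ, hρ⟩ : ∃ ρ : ℝ, ρ = s.support.card := ⟨_, rfl⟩
  have hρ0 : 0 ≤ ρ := by rw [hρ]; positivity
  have hρn : 100 * ρ ≤ n := by rw [hρ]; exact_mod_cast hs2
  obtain ⟨k, hk⟩ : ∃ k : ℝ, k = (Fintype.card K : ℝ) := ⟨_, rfl⟩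
  have hk0 : 0 < k := by rw [hk]; exact_mod_cast Fintype.card_pos
  obtain ⟨S, hS⟩ : ∃ S, S = ∑ v, e g (p, p) v := ⟨_, rfl⟩
  obtain ⟨c, hc⟩ : ∃ c, c = (1 + 1 / (n : ℝ)) * k / (n * (n - 1)) := ⟨_, rfl⟩
  have hN1 := (N1 (by omega) hg (p, p)).1
  rw [← hS, ← hk] at hN1
  obtain ⟨hS0, hc0, hcn⟩ := num1 hn hN1 hk0 hc
  by_contra hcon
  push Not at hcon
  rw [← hρ] at hcon
  obtain ⟨M, hM⟩ : ∃ M, M = 2 * (1 + ρ ^ 2 / n) := ⟨_, rfl⟩
  have hM0 : 2 ≤ M := by
    rw [hM]
    have : 0 ≤ ρ ^ 2 / n := by positivity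
    linarith
  -- pointwise
  have key : ∀ v, e g (p, p) v ≤
      e g (p, p) v * (∑ b ∈ s.support, e g (s⁻¹ p, b) v) +
      1 / M * (e g (p, p) v * ((s.support ∩ (g v * s * (g v)⁻¹).support).card : ℝ)) := by
    intro v
    rcases e_cases g (p, p) v with h | ⟨h, hgv⟩
    · rw [h]; simp
    · rw [h, one_mul, one_mul, ← mem_conj]
      have hpr : p ∈ (g v * s * (g v)⁻¹).support := mem_conj' (g v) s p hp hgv
      have hI : 0 ≤ 1 / M * ((s.support ∩ (g v * s * (g v)⁻¹).support).card : ℝ) := by positivity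
      split_ifs with hb
      · linarith
      · rw [zero_add]
        have h1 : cj s (g v) ≠ 1 := by
          intro h2
          have h3 := comm_lower s (g v * s * (g v)⁻¹)
          have h4 : (s⁻¹ * (g v * s * (g v)⁻¹)⁻¹ * s * (g v * s * (g v)⁻¹)).support.card = 0 := by
            have h5 : s⁻¹ * (g v * s * (g v)⁻¹)⁻¹ * s * (g v * s * (g v)⁻¹) = 1 := h2
            rw [h5, Perm.support_one, Finset.card_empty]
          rw [h4] at h3
          have h6 : p ∈ (s.support ∩ (g v * s * (g v)⁻¹).support).filter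
              (fun q => s⁻¹ q ∉ (g v * s * (g v)⁻¹).support) := by
            rw [mem_filter, mem_inter]
            exact ⟨⟨hp, hpr⟩, hb⟩
          have h7 := Finset.card_pos.2 ⟨p, h6⟩
          omega
        have h2 := hcon v h1
        have h3 : ((cj s (g v)).support.card : ℝ) ≤
            3 * (s.support ∩ (g v * s * (g v)⁻¹).support).card := by
          exact_mod_cast comm_upper s (g v * s * (g v)⁻¹)
        rw [one_div, inv_mul_eq_div, le_div_iff₀ (by linarith)]
        rw [hM]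
        linarith
  have hsum := Finset.sum_le_sum fun v (_ : v ∈ (univ : Finset K)) => key v
  rw [Finset.sum_add_distrib, ← Finset.mul_sum, ← hS] at hsum
  have h1 : ∑ v, e g (p, p) v * (∑ b ∈ s.support, e g (s⁻¹ p, b) v) ≤ ρ * c := by
    have e1 : ∑ v, e g (p, p) v * (∑ b ∈ s.support, e g (s⁻¹ p, b) v) =
        ∑ b ∈ s.support, ∑ v, e g (p, p) v * e g (s⁻¹ p, b) v := by
      rw [Finset.sum_comm]
      exact Finset.sum_congr rfl fun v _ => Finset.mul_sum _ _ _
    rw [e1]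
    have hne : p ≠ s⁻¹ p := by
      intro h2
      have h3 : s p = p := by
        conv_rhs => rw [← app_inv s p, ← h2]
      exact (Perm.mem_support.1 hp) h3
    calc ∑ b ∈ s.support, ∑ v, e g (p, p) v * e g (s⁻¹ p, b) v ≤ ∑ b ∈ s.support, c := by
          refine Finset.sum_le_sum fun b _ => ?_
          refine (M_le (by omega) hg (p, p) (s⁻¹ p, b)).trans ?_
          rw [if_neg (fun h => hne (congrArg Prod.fst h)), zero_add, hc, hk]
      _ = ρ * c := by rw [Finset.sum_const, nsmul_eq_mul, hρ]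
  have h2 := sum_e_I (by omega) hg s p hp
  rw [← hS, ← hρ, ← hk, ← hc] at h2
  have h3 : S ≤ ρ * c + 1 / M * (S + ρ ^ 2 * c) := by
    refine hsum.trans ?_
    have : 1 / M * ∑ v, e g (p, p) v * ((s.support ∩ (g v * s * (g v)⁻¹).support).card : ℝ) ≤
        1 / M * (S + ρ ^ 2 * c) := mul_le_mul_of_nonneg_left h2 (by positivity)
    linarith
  have h4 : ρ * c ≤ 26 / 2500 * S := by
    have : ρ * c * n ≤ 26 / 2500 * S * n := by
      calc ρ * c * n = ρ * (c * n) := by ring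
        _ ≤ ρ * (26 / 25 * S) := mul_le_mul_of_nonneg_left hcn hρ0
        _ ≤ _ := by nlinarith
    exact le_of_mul_le_mul_right this hnp
  have h5 : ρ ^ 2 * c ≤ 26 / 25 * (ρ ^ 2 / n) * S := by
    have e1 : 26 / 25 * (ρ ^ 2 / n) * S = ρ ^ 2 * (26 / 25 * S) / n := by ring
    rw [e1, le_div_iff₀ hnp]
    calc ρ ^ 2 * c * n = ρ ^ 2 * (c * n) := by ring
      _ ≤ _ := mul_le_mul_of_nonneg_left hcn (by positivity)
  have h6 : 1 / M * (S + ρ ^ 2 * c) ≤ 26 / 50 * S := by
    rw [one_div, inv_mul_eq_div, div_le_iff₀ (by linarith), hM]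
    have h7 : 0 ≤ ρ ^ 2 / n := by positivity
    nlinarith
  linarith

/-- the last step: a 3-cycle -/
lemma last (hn : 100 ≤ n) {g : K → Perm (Fin n)} (hg : Mix2 g) (s : Perm (Fin n)) (hs : s ≠ 1)
    (hs2 : 2 * s.support.card ^ 2 ≤ n) :
    ∃ (v : K) (t : Tup 3 n), cj s (g v) = (c3 t : Perm (Fin n)) := by
  classical
  have hn0 : (100 : ℝ) ≤ n := by exact_mod_cast hn
  have hnp : (0 : ℝ) < n := by linarith
  obtain ⟨p, hp⟩ : ∃ p, p ∈ s.support := by
    by_contra hcon
    push Not at hcon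
    exact hs (Perm.support_eq_empty_iff.1 (Finset.eq_empty_of_forall_notMem hcon))
  obtain ⟨ρ, hρ⟩ : ∃ ρ : ℝ, ρ = s.support.card := ⟨_, rfl⟩
  have hρn : 2 * ρ ^ 2 ≤ n := by rw [hρ]; exact_mod_cast hs2
  obtain ⟨k, hk⟩ : ∃ k : ℝ, k = (Fintype.card K : ℝ) := ⟨_, rfl⟩
  have hk0 : 0 < k := by rw [hk]; exact_mod_cast Fintype.card_pos
  obtain ⟨S, hS⟩ : ∃ S, S = ∑ v, e g (p, p) v := ⟨_, rfl⟩
  obtain ⟨c, hc⟩ : ∃ c, c = (1 + 1 / (n : ℝ)) * k / (n * (n - 1)) := ⟨_, rfl⟩
  have hN1 := (N1 (by omega) hg (p, p)).1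
  rw [← hS, ← hk] at hN1
  obtain ⟨hS0, hc0, hcn⟩ := num1 hn hN1 hk0 hc
  have h2 := sum_e_I (by omega) hg s p hp
  rw [← hS, ← hρ, ← hk, ← hc] at h2
  have h5 : ρ ^ 2 * c ≤ 26 / 50 * S := by
    have : ρ ^ 2 * c * n ≤ 26 / 50 * S * n := by
      calc ρ ^ 2 * c * n = ρ ^ 2 * (c * n) := by ring
        _ ≤ ρ ^ 2 * (26 / 25 * S) := mul_le_mul_of_nonneg_left hcn (by positivity)
        _ ≤ _ := by nlinarith
    exact le_of_mul_le_mul_right this hnp
  obtain ⟨v, hv, hI⟩ : ∃ v, g v p = p ∧ (s.support ∩ (g v * s * (g v)⁻¹).support).card ≤ 1 := by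
    by_contra hcon
    push Not at hcon
    have h6 : ∑ v, e g (p, p) v * 2 ≤
        ∑ v, e g (p, p) v * ((s.support ∩ (g v * s * (g v)⁻¹).support).card : ℝ) := by
      refine Finset.sum_le_sum fun v _ => ?_
      rcases e_cases g (p, p) v with h | ⟨h, hgv⟩
      · rw [h]; simp
      · rw [h, one_mul, one_mul]
        exact_mod_cast hcon v hgv
    rw [← Finset.sum_mul, ← hS] at h6
    linarith
  obtain ⟨r, hr⟩ : ∃ r, r = g v * s * (g v)⁻¹ := ⟨_, rfl⟩
  have hpr : p ∈ r.support := by rw [hr]; exact mem_conj' (g v) s p hp hv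
  rw [← hr] at hI
  have honly : ∀ z, z ∈ s.support → z ∈ r.support → z = p := by
    intro z h1 h2
    exact Finset.card_le_one.1 hI z (mem_inter.2 ⟨h1, h2⟩) p (mem_inter.2 ⟨hp, hpr⟩)
  have hs1 : ∀ z, z ∈ r.support → z ≠ p → s z = z := fun z h1 h2 =>
    Perm.notMem_support.1 fun h3 => h2 (honly z h3 h1)
  have hr1 : ∀ z, z ∈ s.support → z ≠ p → r z = z := fun z h1 h2 =>
    Perm.notMem_support.1 fun h3 => h2 (honly z h1 h3)
  have hsi : ∀ z, s z = z → s⁻¹ z = z := fun z h => by rw [Perm.inv_eq_iff_eq]; exact h.symm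
  have hri : ∀ z, r z = z → r⁻¹ z = z := fun z h => by rw [Perm.inv_eq_iff_eq]; exact h.symm
  obtain ⟨a, ha⟩ : ∃ a, a = s⁻¹ p := ⟨_, rfl⟩
  obtain ⟨b, hb⟩ : ∃ b, b = r⁻¹ p := ⟨_, rfl⟩
  have hsa : s a = p := by rw [ha]; exact app_inv s p
  have hrb : r b = p := by rw [hb]; exact app_inv r p
  have hpa : p ≠ a := fun h => (Perm.mem_support.1 hp) (by rw [← h] at hsa; exact hsa)
  have hpb : p ≠ b := fun h => (Perm.mem_support.1 hpr) (by rw [← h] at hrb; exact hrb)
  have has : a ∈ s.support := by rw [Perm.mem_support, hsa]; exact hpa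
  have hbr : b ∈ r.support := by rw [Perm.mem_support, hrb]; exact hpb
  have hra : r a = a := hr1 a has hpa.symm
  have hsb : s b = b := hs1 b hbr hpb.symm
  have hab : a ≠ b := by
    intro h
    rw [← h, hra] at hrb
    exact hpa hrb.symm
  have hsp : s p ≠ p := Perm.mem_support.1 hp
  have hrp : r p ≠ p := Perm.mem_support.1 hpr
  refine ⟨v, ⟨![p, a, b], ?_⟩, ?_⟩
  · intro i j hij
    fin_cases i <;> fin_cases j
    · rfl
    · exact absurd hij hpa
    · exact absurd hij hpb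
    · exact absurd hij hpa.symm
    · rfl
    · exact absurd hij hab
    · exact absurd hij hpb.symm
    · exact absurd hij hab.symm
    · rfl
  · unfold cj
    rw [← hr]
    change _ = Equiv.swap p a * Equiv.swap a b
    ext1 z
    by_cases hzp : z = p
    · subst hzp
      have e1 : r z ∈ r.support := Perm.apply_mem_support.2 hpr
      rw [Perm.mul_apply, Perm.mul_apply, Perm.mul_apply, hs1 _ e1 hrp, inv_app',
        ← ha, Perm.mul_apply, swap_apply_of_ne_of_ne hpa hpb, swap_apply_left]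
    · by_cases hza : z = a
      · subst hza
        rw [Perm.mul_apply, Perm.mul_apply, Perm.mul_apply, hra, hsa, ← hb, hsi b hsb,
          Perm.mul_apply, swap_apply_left, swap_apply_of_ne_of_ne hpb.symm hab.symm]
      · by_cases hzb : z = b
        · subst hzb
          have e1 : s p ∈ s.support := Perm.apply_mem_support.2 hp
          rw [Perm.mul_apply, Perm.mul_apply, Perm.mul_apply, hrb, hri _ (hr1 _ e1 hsp),
            inv_app', Perm.mul_apply, swap_apply_right, swap_apply_right]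
        · rw [Perm.mul_apply (Equiv.swap p a), swap_apply_of_ne_of_ne hza hzb,
            swap_apply_of_ne_of_ne hzp hza, comm_iff]
          by_cases h1 : z ∈ s.support
          · have h2 : s z ≠ p := fun h => hza (s.injective (h.trans hsa.symm))
            rw [hr1 z h1 hzp, hr1 (s z) (Perm.apply_mem_support.2 h1) h2]
          · rw [Perm.notMem_support.1 h1]
            by_cases h3 : z ∈ r.support
            · have h4 : r z ≠ p := fun h => hzb (r.injective (h.trans hrb.symm))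
              exact hs1 (r z) (Perm.apply_mem_support.2 h3) h4
            · rw [Perm.notMem_support.1 h3, Perm.notMem_support.1 h1]

end

end Pool.Agent.K1H7.OE
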